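import Pool.Agent.Q66.RP.Prod

/-!
# Growth rates: upper bounds for products of braids, cyclic coverings
-/

set_option autoImplicit false

namespace Pool.Agent.Q66.RP

open Matrix Finset Filter Topology Pool.Agent.W715.VC

/-- `limsup 2 π log (S N) / N ≤ V` -/
def UB (S : ℕ → ℝ) (V : ℝ) : Prop :=
  ∀ ε : ℝ, 0 < ε → ∀ᶠ N : ℕ in atTop, S N ≤ Real.exp ((V / (2 * Real.pi) + ε) * N)

/-- `liminf 2 π log (S N) / N ≥ V` -/
def LB (S : ℕ → ℝ) (V : ℝ) : Prop :=
  ∀ ε : ℝ, 0 < ε → ∀ᶠ N : ℕ in atTop, Real.exp ((V / (2 * Real.pi) - ε) * N) ≤ S N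

/-- the limit -/
def Lim (S : ℕ → ℝ) (V : ℝ) : Prop :=
  Tendsto (fun N : ℕ => 2 * Real.pi * (Real.log (S N) / N)) atTop (𝓝 V)

lemma Lim.ub {S : ℕ → ℝ} (hS : ∀ N, 0 ≤ S N) {V : ℝ} (h : Lim S V) : UB S V := by
  intro ε hε
  have hpi := Real.pi_pos
  have h1 : ∀ᶠ N : ℕ in atTop, 2 * Real.pi * (Real.log (S N) / N) < V + 2 * Real.pi * ε :=
    h.eventually (gt_mem_nhds (by nlinarith))
  filter_upwards [h1, eventually_gt_atTop 0] with N e1 e2
  have hN : (0 : ℝ) < N := by exact_mod_cast e2
  rcases (hS N).lt_or_eq with h0 | h0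
  · rw [← Real.log_le_iff_le_exp h0]
    have e3 : Real.log (S N) / N < V / (2 * Real.pi) + ε := by
      have : V + 2 * Real.pi * ε = 2 * Real.pi * (V / (2 * Real.pi) + ε) := by field_simp
      rw [this] at e1
      exact lt_of_mul_lt_mul_left e1 (by positivity)
    rw [div_lt_iff₀ hN] at e3
    exact e3.le
  · rw [← h0]
    exact (Real.exp_pos _).le

lemma Lim.lb {S : ℕ → ℝ} (hS : ∀ N, 0 ≤ S N) {V : ℝ} (hV : 0 < V) (h : Lim S V) : LB S V := by
  intro ε hε
  have hpi := Real.pi_pos
  have h1 : ∀ᶠ N : ℕ in atTop, V - 2 * Real.pi * ε < 2 * Real.pi * (Real.log (S N) / N) :=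
    h.eventually (lt_mem_nhds (by nlinarith))
  have h2 : ∀ᶠ N : ℕ in atTop, 0 < 2 * Real.pi * (Real.log (S N) / N) :=
    h.eventually (lt_mem_nhds hV)
  filter_upwards [h1, h2, eventually_gt_atTop 0] with N e1 e4 e2
  have hN : (0 : ℝ) < N := by exact_mod_cast e2
  have h0 : 0 < S N := by
    rcases (hS N).lt_or_eq with h0 | h0
    · exact h0
    · rw [← h0, Real.log_zero, zero_div, mul_zero] at e4
      exact absurd e4 (lt_irrefl _)
  rw [← Real.le_log_iff_exp_le h0]
  have e3 : V / (2 * Real.pi) - ε < Real.log (S N) / N := by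
    have : V - 2 * Real.pi * ε = 2 * Real.pi * (V / (2 * Real.pi) - ε) := by field_simp
    rw [this] at e1
    exact lt_of_mul_lt_mul_left e1 (by positivity)
  rw [lt_div_iff₀ hN] at e3
  exact e3.le

lemma lim_of_bounds {S : ℕ → ℝ} {V : ℝ} (h1 : UB S V) (h2 : LB S V) : Lim S V := by
  have hpi := Real.pi_pos
  unfold Lim
  rw [Metric.tendsto_atTop]
  intro ε hε
  have hε' : 0 < ε / (4 * Real.pi) := by positivity
  have := ((h1 _ hε').and (h2 _ hε')).and (eventually_gt_atTop 0)
  rw [eventually_atTop] at this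
  obtain ⟨n, hn⟩ := this
  refine ⟨n, fun N hN => ?_⟩
  obtain ⟨⟨e1, e2⟩, e3⟩ := hn N hN
  have hN : (0 : ℝ) < N := by exact_mod_cast e3
  have h0 : 0 < S N := (Real.exp_pos _).trans_le e2
  rw [← Real.log_le_iff_le_exp h0] at e1
  rw [← Real.le_log_iff_exp_le h0] at e2
  rw [← div_le_iff₀ hN] at e1
  rw [← le_div_iff₀ hN] at e2
  rw [Real.dist_eq, abs_lt]
  have e4 := mul_le_mul_of_nonneg_left e1 (by positivity : 0 ≤ 2 * Real.pi)
  have e5 := mul_le_mul_of_nonneg_left e2 (by positivity : 0 ≤ 2 * Real.pi)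
  have f1 : 2 * Real.pi * (V / (2 * Real.pi) + ε / (4 * Real.pi)) = V + ε / 2 := by
    field_simp
    ring
  have f2 : 2 * Real.pi * (V / (2 * Real.pi) - ε / (4 * Real.pi)) = V - ε / 2 := by
    field_simp
    ring
  rw [f1] at e4
  rw [f2] at e5
  constructor <;> linarith

lemma poly_le (k : ℕ) (C : ℝ) {ε : ℝ} (hε : 0 < ε) :
    ∀ᶠ N : ℕ in atTop, C * (N : ℝ) ^ k ≤ Real.exp (ε * N) := by
  have h1 : Tendsto (fun x : ℝ => Real.exp x / x ^ k) atTop atTop :=
    Real.tendsto_exp_div_pow_atTop k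
  have h2 : Tendsto (fun N : ℕ => ε * (N : ℝ)) atTop atTop :=
    Tendsto.const_mul_atTop hε tendsto_natCast_atTop_atTop
  have h3 := (h1.comp h2).eventually_ge_atTop (|C| / ε ^ k)
  filter_upwards [h3, eventually_gt_atTop 0] with N e1 e2
  have hN : (0 : ℝ) < N := by exact_mod_cast e2
  simp only [Function.comp] at e1
  rw [le_div_iff₀ (by positivity)] at e1
  have e3 : |C| / ε ^ k * (ε * (N : ℝ)) ^ k = |C| * (N : ℝ) ^ k := by
    rw [mul_pow]
    field_simp
  rw [e3] at e1
  exact (mul_le_mul_of_nonneg_right (le_abs_self C) (by positivity)).trans e1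

/-- the growth of products -/
lemma ub_prod (l : List ((ℕ → ℝ) × ℝ)) (h : ∀ p ∈ l, UB p.1 p.2 ∧ 0 ≤ p.2) {ε : ℝ} (hε : 0 < ε) :
    ∀ᶠ N : ℕ in atTop, (∀ p ∈ l, 0 ≤ p.1 N + (N : ℝ) ^ 3) →
      (l.map fun p => p.1 N + (N : ℝ) ^ 3).prod ≤
      Real.exp (((l.map Prod.snd).sum / (2 * Real.pi) + ε) * N) := by
  induction l generalizing ε with
  | nil =>
    filter_upwards [eventually_ge_atTop 0] with N hN _
    simp only [List.map_nil, List.prod_nil, List.sum_nil, zero_div, zero_add]
    exact Real.one_le_exp (by positivity)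
  | cons p l ih =>
    have h1 := ih (fun q hq => h q (List.mem_cons_of_mem p hq)) (half_pos hε)
    obtain ⟨h2, h3⟩ := h p List.mem_cons_self
    have h4 := h2 (ε / 4) (by positivity)
    have h5 := poly_le 3 1 (show 0 < ε / 4 by positivity)
    have h6 := poly_le 0 2 (show 0 < ε / 4 by positivity)
    filter_upwards [h1, h4, h5, h6, eventually_ge_atTop 1] with N e1 e2 e3 e4 e5 e6
    have hN : (1 : ℝ) ≤ N := by exact_mod_cast e5
    have hpi := Real.pi_pos
    simp only [pow_zero, mul_one, one_mul] at e3 e4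
    rw [List.map_cons, List.prod_cons, List.map_cons, List.sum_cons]
    have e7 := e1 fun q hq => e6 q (List.mem_cons_of_mem p hq)
    have e8 : p.1 N + (N : ℝ) ^ 3 ≤ Real.exp ((p.2 / (2 * Real.pi) + ε / 2) * N) := by
      have f1 : Real.exp (ε / 4 * N) ≤ Real.exp ((p.2 / (2 * Real.pi) + ε / 4) * N) := by
        apply Real.exp_le_exp.2
        have : 0 ≤ p.2 / (2 * Real.pi) := by positivity
        nlinarith
      have f2 : Real.exp ((p.2 / (2 * Real.pi) + ε / 2) * N) =
          Real.exp (ε / 4 * N) * Real.exp ((p.2 / (2 * Real.pi) + ε / 4) * N) := by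
        rw [← Real.exp_add]
        congr 1
        ring
      rw [f2]
      have f3 := mul_le_mul_of_nonneg_right e4
        (Real.exp_pos ((p.2 / (2 * Real.pi) + ε / 4) * N)).le
      linarith
    have e9 : 0 ≤ p.1 N + (N : ℝ) ^ 3 := e6 p List.mem_cons_self
    have e10 : Real.exp (((p.2 + (l.map Prod.snd).sum) / (2 * Real.pi) + ε) * N) =
        Real.exp ((p.2 / (2 * Real.pi) + ε / 2) * N) *
        Real.exp (((l.map Prod.snd).sum / (2 * Real.pi) + ε / 2) * N) := by
      rw [← Real.exp_add]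
      congr 1
      ring
    rw [e10]
    have e11 : 0 ≤ (l.map fun p => p.1 N + (N : ℝ) ^ 3).prod :=
      List.prod_nonneg fun a ha => by
        rw [List.mem_map] at ha
        obtain ⟨q, hq, rfl⟩ := ha
        exact e6 q (List.mem_cons_of_mem p hq)
    exact mul_le_mul e8 e7 e11 (Real.exp_pos _).le

/-- `|tr|` of the operator of a braid word -/
noncomputable def kt (w : List (ℕ × Bool)) (N : ℕ) : ℝ := ‖(rep3 N w).trace‖

lemma kt_nonneg (w : List (ℕ × Bool)) (N : ℕ) : 0 ≤ kt w N := norm_nonneg _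

/-- **the growth of products of braids** -/
theorem ub_word (l : List (List (ℕ × Bool) × ℝ))
    (h : ∀ p ∈ l, (∀ a ∈ p.1, a.1 < 2) ∧ UB (kt (p.1 ++ dual p.1)) p.2 ∧ 0 ≤ p.2) :
    UB (kt (l.map Prod.fst).flatten) ((l.map Prod.snd).sum / 2) := by
  intro ε hε
  have h1 := ub_prod (l.map fun p => (kt (p.1 ++ dual p.1), p.2)) (fun q hq => by
    rw [List.mem_map] at hq
    obtain ⟨p, hp, rfl⟩ := hq
    exact (h p hp).2) hε
  have h2 := poly_le 6 1 hε
  filter_upwards [h1, h2, eventually_gt_atTop 0] with N e1 e2 e3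
  have h3 := trace_prod e3 (l.map Prod.fst) (fun u hu => by
    rw [List.mem_map] at hu
    obtain ⟨p, hp, rfl⟩ := hu
    exact (h p hp).1)
  rw [List.map_map] at h3
  have e4 := e1 fun q hq => by
    rw [List.mem_map] at hq
    obtain ⟨p, hp, rfl⟩ := hq
    have := kt_nonneg (p.1 ++ dual p.1) N
    positivity
  rw [List.map_map, List.map_map] at e4
  have e5 : (l.map (Prod.snd ∘ fun p : List (ℕ × Bool) × ℝ => (kt (p.1 ++ dual p.1), p.2))) =
      l.map Prod.snd := rfl
  rw [e5] at e4
  have e6 : (l.map ((fun u => ‖(rep3 N (u ++ dual u)).trace‖ + (N : ℝ) ^ 3) ∘ Prod.fst)).prod ≤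
      Real.exp (((l.map Prod.snd).sum / (2 * Real.pi) + ε) * N) := e4
  have e7 : kt (l.map Prod.fst).flatten N ^ 2 ≤
      (Real.exp (((l.map Prod.snd).sum / 2 / (2 * Real.pi) + ε) * N)) ^ 2 := by
    refine h3.trans ?_
    rw [← Real.exp_nat_mul]
    have f1 : (2 : ℕ) * (((l.map Prod.snd).sum / 2 / (2 * Real.pi) + ε) * (N : ℝ)) =
        ε * N + ((l.map Prod.snd).sum / (2 * Real.pi) + ε) * N := by
      push_cast
      ring
    rw [f1, Real.exp_add]
    rw [one_mul] at e2
    exact mul_le_mul e2 e6 (List.prod_nonneg fun a ha => by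
      rw [List.mem_map] at ha
      obtain ⟨p, hp, rfl⟩ := ha
      simp only [Function.comp]
      positivity) (Real.exp_pos _).le
  exact le_of_sq_le_sq e7 (Real.exp_pos _).le
where
  le_of_sq_le_sq {a b : ℝ} (h : a ^ 2 ≤ b ^ 2) (hb : 0 ≤ b) : a ≤ b := by
    by_contra h1
    push Not at h1
    nlinarith

/-- **cyclic coverings**: the growth of the powers of a doubled braid -/
theorem lim_iff {u : List (ℕ × Bool)} (hu : ∀ l ∈ u, l.1 < 2) {n : ℕ} (hn : n ≠ 0) {V : ℝ}
    (hV : 0 < V) : Lim (kt (u ++ dual u)) V ↔ Lim (kt (wpow (u ++ dual u) n)) (n * V) := by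
  have hn1 : (1 : ℝ) ≤ n := by exact_mod_cast Nat.one_le_iff_ne_zero.2 hn
  have hpi := Real.pi_pos
  constructor
  · intro h
    have h1 : Tendsto (fun N : ℕ => 2 * Real.pi / N * Real.log ‖(rep3 N (u ++ dual u)).trace‖) atTop
        (𝓝 V) := by
      refine h.congr fun N => ?_
      unfold kt
      ring
    have h2 := growth_pow hu hn hV h1
    unfold Lim
    refine h2.congr fun N => ?_
    unfold kt
    ring
  · intro h
    have hnV : 0 < n * V := by positivity
    have hub := Lim.ub (kt_nonneg _) h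
    have hlb := Lim.lb (kt_nonneg _) hnV h
    refine lim_of_bounds (fun ε hε => ?_) (fun ε hε => ?_)
    · -- upper bound
      have h1 := hub (ε / 4) (by positivity)
      have h2 := poly_le 3 1 (show 0 < ε / 4 by positivity)
      have h3 := poly_le 0 2 (show 0 < ε / 4 by positivity)
      filter_upwards [h1, h2, h3, eventually_gt_atTop 0] with N e1 e2 e3 e4
      have hN : (1 : ℝ) ≤ N := by exact_mod_cast e4
      have hb := (trace_bounds e4 hu hn).2
      simp only [pow_zero, mul_one, one_mul] at e2 e3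
      by_contra hcon
      push Not at hcon
      set T := kt (u ++ dual u) N with hT
      have f1 : Real.exp ((V / (2 * Real.pi) + ε) * N) / (N : ℝ) ^ 3 < T / (N : ℝ) ^ 3 :=
        div_lt_div_of_pos_right hcon (by positivity)
      have f2 : Real.exp ((V / (2 * Real.pi) + 3 * ε / 4) * N) ≤
          Real.exp ((V / (2 * Real.pi) + ε) * N) / (N : ℝ) ^ 3 := by
        rw [le_div_iff₀ (by positivity)]
        have : Real.exp ((V / (2 * Real.pi) + ε) * N) =
            Real.exp ((V / (2 * Real.pi) + 3 * ε / 4) * N) * Real.exp (ε / 4 * N) := by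
          rw [← Real.exp_add]
          congr 1
          ring
        rw [this]
        exact mul_le_mul_of_nonneg_left e2 (Real.exp_pos _).le
      have f3 : Real.exp ((V / (2 * Real.pi) + 3 * ε / 4) * N) ^ n < (T / (N : ℝ) ^ 3) ^ n :=
        pow_lt_pow_left₀ (f2.trans_lt f1) (Real.exp_pos _).le hn
      have f4 : (T / (N : ℝ) ^ 3) ^ n ≤ kt (wpow (u ++ dual u) n) N + (N : ℝ) ^ 3 := hb
      have f5 : Real.exp (ε / 4 * N) ≤ Real.exp ((n * V / (2 * Real.pi) + ε / 4) * N) := by
        apply Real.exp_le_exp.2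
        have : 0 ≤ n * V / (2 * Real.pi) := by positivity
        nlinarith
      have f6 : kt (wpow (u ++ dual u) n) N + (N : ℝ) ^ 3 ≤
          Real.exp ((n * V / (2 * Real.pi) + ε / 2) * N) := by
        have : Real.exp ((n * V / (2 * Real.pi) + ε / 2) * N) =
            Real.exp (ε / 4 * N) * Real.exp ((n * V / (2 * Real.pi) + ε / 4) * N) := by
          rw [← Real.exp_add]
          congr 1
          ring
        rw [this]
        have f7 := mul_le_mul_of_nonneg_right e3
          (Real.exp_pos ((n * V / (2 * Real.pi) + ε / 4) * N)).le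
        linarith
      have f8 : Real.exp ((n * V / (2 * Real.pi) + ε / 2) * N) ≤
          Real.exp ((V / (2 * Real.pi) + 3 * ε / 4) * N) ^ n := by
        rw [← Real.exp_nat_mul]
        apply Real.exp_le_exp.2
        have g1 : (n : ℝ) * ((V / (2 * Real.pi) + 3 * ε / 4) * N) =
            (n * V / (2 * Real.pi) + n * (3 * ε / 4)) * N := by ring
        rw [g1]
        apply mul_le_mul_of_nonneg_right _ (by linarith)
        nlinarith
      linarith
    · -- lower bound
      -- we may take a small `ε`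
      have key : ∀ δ : ℝ, 0 < δ → δ < V / (2 * Real.pi) / 2 → ∀ᶠ N : ℕ in atTop,
          Real.exp ((V / (2 * Real.pi) - δ) * N) ≤ kt (u ++ dual u) N := by
        intro δ hδ hδ2
        have h1 := hlb (δ / 4) (by positivity)
        have h2 := poly_le 3 1 (show 0 < δ / 4 by positivity)
        have h3 := poly_le 0 ((2 : ℝ) ^ n) (show 0 < δ / 4 by positivity)
        have hV2 : 0 < V / (2 * Real.pi) / 2 := by positivity
        have h4 := poly_le 3 1 hV2
        filter_upwards [h1, h2, h3, h4, eventually_gt_atTop 0] with N e1 e2 e3 e5 e4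
        have hN : (1 : ℝ) ≤ N := by exact_mod_cast e4
        have hb := (trace_bounds e4 hu hn).1
        simp only [pow_zero, mul_one, one_mul] at e2 e3 e5
        by_contra hcon
        push Not at hcon
        set T := kt (u ++ dual u) N with hT
        have hT0 : 0 ≤ T := kt_nonneg _ _
        have f1 : (N : ℝ) ^ 3 ≤ Real.exp ((V / (2 * Real.pi) - δ) * N) := by
          refine e5.trans (Real.exp_le_exp.2 ?_)
          apply mul_le_mul_of_nonneg_right _ (by linarith)
          linarith
        have f2 : (T + (N : ℝ) ^ 3) ^ n ≤ (2 * Real.exp ((V / (2 * Real.pi) - δ) * N)) ^ n :=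
          pow_le_pow_left₀ (by positivity) (by linarith) n
        have f3 : kt (wpow (u ++ dual u) n) N ≤ (N : ℝ) ^ 3 *
            (2 * Real.exp ((V / (2 * Real.pi) - δ) * N)) ^ n :=
          hb.trans (mul_le_mul_of_nonneg_left f2 (by positivity))
        have f4 : (N : ℝ) ^ 3 * (2 * Real.exp ((V / (2 * Real.pi) - δ) * N)) ^ n ≤
            Real.exp (δ / 4 * N) * (Real.exp (δ / 4 * N) *
              Real.exp ((V / (2 * Real.pi) - δ) * N) ^ n) := by
          rw [mul_pow]
          exact mul_le_mul e2 (mul_le_mul_of_nonneg_right e3 (by positivity)) (by positivity)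
            (Real.exp_pos _).le
        have f5 : Real.exp (δ / 4 * N) * (Real.exp (δ / 4 * N) *
              Real.exp ((V / (2 * Real.pi) - δ) * N) ^ n) =
            Real.exp ((n * V / (2 * Real.pi) - (n * δ - δ / 2)) * N) := by
          rw [← Real.exp_nat_mul, ← Real.exp_add, ← Real.exp_add]
          congr 1
          ring
        have f6 : Real.exp ((n * V / (2 * Real.pi) - (n * δ - δ / 2)) * N) <
            Real.exp ((n * V / (2 * Real.pi) - δ / 4) * N) := by
          apply Real.exp_lt_exp.2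
          apply mul_lt_mul_of_pos_right _ (by linarith)
          nlinarith
        linarith
      have hVp : 0 < V / (2 * Real.pi) / 2 := by positivity
      have hmin : 0 < min ε (V / (2 * Real.pi) / 4) := lt_min hε (by positivity)
      refine (key _ hmin ?_).mono fun N hN => le_trans (Real.exp_le_exp.2 ?_) hN
      · refine (min_le_right _ _).trans_lt ?_
        linarith
      · apply mul_le_mul_of_nonneg_right _ (Nat.cast_nonneg N)
        have := min_le_left ε (V / (2 * Real.pi) / 4)
        linarith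

end Pool.Agent.Q66.RP
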