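import Pool.Agent.Q66.RP.Spec

/-!
# The reflection inequality for traces of 3-braids
-/

set_option autoImplicit false

namespace Pool.Agent.Q66.RP

open Matrix Finset Pool.Agent.W715.VC

variable {N : ℕ}

lemma dual_dual {u : List (ℕ × Bool)} (hu : ∀ l ∈ u, l.1 < 2) : dual (dual u) = u := by
  unfold dual
  rw [← List.map_reverse, List.reverse_reverse, List.map_map]
  conv_rhs => rw [← List.map_id u]
  refine List.map_congr_left fun l hl => ?_
  have := hu l hl
  obtain ⟨k, b⟩ := l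
  simp only [Function.comp, dl, Bool.not_not, id]
  simp only at this
  congr 1
  omega

lemma dual_lt {u : List (ℕ × Bool)} : ∀ l ∈ dual u, l.1 < 2 := by
  intro l hl
  unfold dual at hl
  rw [List.mem_reverse, List.mem_map] at hl
  obtain ⟨a, _, rfl⟩ := hl
  simp only [dl]
  omega

lemma prod_nonneg_list (l : List ℝ) (h : ∀ a ∈ l, 1 ≤ a) : 1 ≤ l.prod := by
  induction l with
  | nil => simp
  | cons a l ih =>
    rw [List.prod_cons]
    have h1 := h a List.mem_cons_self
    have h2 := ih fun b hb => h b (List.mem_cons_of_mem a hb)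
    nlinarith

/-- products of operators -/
lemma norm_prod_le {m : ℕ} (hm : m < N) (h2 : N ≤ 2 * m + 1)
    (us : List (List (ℕ × Bool) × ℝ))
    (hus : ∀ p ∈ us, (∀ l ∈ p.1, l.1 < 2) ∧ 1 ≤ p.2 ∧ SpecLe (rep3 N (dual p.1 ++ p.1)) p.2)
    {x : I3 N → ℂ} (hx : InK m x) :
    ‖Hf (rep3 N (us.map Prod.fst).flatten *ᵥ x) (rep3 N (us.map Prod.fst).flatten *ᵥ x)‖ ≤
      (us.map Prod.snd).prod * ‖Hf x x‖ := by
  induction us with
  | nil => simp [rep3_nil]
  | cons p us ih =>
    rw [List.map_cons, List.map_cons, List.flatten_cons, List.prod_cons, rep3_append,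
      ← Matrix.mulVec_mulVec]
    obtain ⟨h1, h3, h4⟩ := hus p List.mem_cons_self
    have h5 := ih fun q hq => hus q (List.mem_cons_of_mem p hq)
    have h6 := norm_le hm h2 h1 (by linarith) h4
      ((good_rep3 (us.map Prod.fst).flatten).InK hx)
    refine h6.trans ?_
    rw [mul_assoc]
    exact mul_le_mul_of_nonneg_left h5 (by linarith)

/-- **the eigenvalues of products of braids** -/
theorem eig_prod (hN : 0 < N) (us : List (List (ℕ × Bool) × ℝ))
    (hus : ∀ p ∈ us, (∀ l ∈ p.1, l.1 < 2) ∧ 1 ≤ p.2 ∧ SpecLe (rep3 N (dual p.1 ++ p.1)) p.2)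
    {lam : ℂ} {m0 : ℕ} (h0 : Eig (rep3 N (us.map Prod.fst).flatten) lam m0) :
    ‖lam‖ ^ 2 ≤ (us.map Prod.snd).prod := by
  classical
  set w := (us.map Prod.fst).flatten with hw
  set B := rep3 N w with hB
  have hG : Good B := good_rep3 _
  have hex : ∃ m, Eig B lam m := ⟨m0, h0⟩
  obtain ⟨x, hx0, hxW, hx⟩ := Nat.find_spec hex
  have hmin : ∀ k, k < Nat.find hex → ¬ Eig B lam k := fun k hk => Nat.find_min hex hk
  set m := Nat.find hex with hm
  -- the eigenvector is a highest weight vector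
  have hxE : Et N *ᵥ x = 0 := by
    by_contra hE
    have h1 : B *ᵥ (Et N *ᵥ x) = lam • (Et N *ᵥ x) := by
      rw [Matrix.mulVec_mulVec, hG.e, ← Matrix.mulVec_mulVec, hx, Matrix.mulVec_smul]
    cases hmm : m with
    | zero =>
      apply hE
      rw [← wp_of_InW hxW, hmm, lower_zero (Et_wt hN)]
    | succ k =>
      refine hmin k (by omega) ⟨_, hE, ?_, h1⟩
      have h2 := wp_lower (Et_wt hN) k x
      rw [← hmm, wp_of_InW hxW] at h2
      rw [← h2]
      exact wp_InW _ _
  have hK : InK m x := ⟨hxW, hxE⟩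
  -- the weight is less than `N`
  have hmN : m < N := by
    by_contra hge
    obtain ⟨y, hyW, hy⟩ := ker_Et hN hK
    have hcomm : B * Et N ^ (N - 1) = Et N ^ (N - 1) * B :=
      (Commute.pow_right (show Commute B (Et N) from hG.e) (N - 1))
    have h1 := eig_symm hN _ (eig_push hG hcomm hx0 hx hyW hy)
    exact hmin _ (by omega) h1
  -- the eigenvector is not orthogonal to `K`
  have hnd : ∃ y, InK m y ∧ Hf y x ≠ 0 := by
    by_contra hno
    push Not at hno
    obtain ⟨z, hz⟩ := range_Ft hN hxW hno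
    cases hmm : m with
    | zero =>
      apply hx0
      rw [← wp_of_InW hxW, hmm, ← hz, wp_raise_zero (Ft_wt hN)]
    | succ k =>
      have h1 : Ft N *ᵥ wp k z = x := by
        rw [← wp_raise (Ft_wt hN), hz, ← hmm, wp_of_InW hxW]
      exact hmin k (by omega) (eig_push hG hG.f hx0 hx (wp_InW k z) h1)
  have hprod : 1 ≤ (us.map Prod.snd).prod := by
    refine prod_nonneg_list _ fun a ha => ?_
    rw [List.mem_map] at ha
    obtain ⟨p, hp, rfl⟩ := ha
    exact (hus p hp).2.1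
  rcases Nat.lt_or_ge (2 * m + 1) N with h2 | h2
  · -- the unitary case
    have h3 := QK_rep3 (by omega) w hK
    rw [← hB, hx, QK_smul] at h3
    have h4 := QK_pos (by omega) hK hx0
    have h5 : ‖lam‖ ^ 2 = 1 := by
      have h6 : (‖lam‖ ^ 2 - 1) * QK N m x = 0 := by linear_combination h3
      have := (mul_eq_zero.1 h6).resolve_right h4.ne'
      linarith
    rw [h5]
    exact hprod
  · -- the positive case
    obtain ⟨y, hyK, hyx⟩ := hnd
    have hxx : 0 < ‖Hf x x‖ := by
      have h3 := cs hmN h2 hyK hK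
      have h4 : 0 < ‖Hf y x‖ ^ 2 := by positivity
      by_contra h5
      have h6 : ‖Hf x x‖ = 0 := le_antisymm (not_lt.1 h5) (norm_nonneg _)
      rw [h6, mul_zero] at h3
      linarith
    have h3 := norm_prod_le hmN h2 us hus hK
    rw [← hw, ← hB, hx, Hf_smul_left, Hf_smul_right, norm_mul, norm_mul, RCLike.norm_conj,
      ← mul_assoc, ← pow_two] at h3
    exact le_of_mul_le_mul_right h3 hxx

lemma rad_le {s : Multiset ℂ} (hs : ∀ a ∈ s, (∃ r : ℝ, 0 < r ∧ a = r) ∨ ‖a‖ = 1)
    (hs0 : 1 ≤ s.card) : ∀ a ∈ s, ‖a‖ ≤ ‖s.sum‖ + s.card := by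
  obtain ⟨M, hM1, hM2, hM3⟩ := exists_radius s hs
  have hc : (1 : ℝ) ≤ s.card := by exact_mod_cast hs0
  have key : M ≤ ‖s.sum‖ + s.card := by
    rcases hM3 with h | h
    · rw [h]
      have := norm_nonneg s.sum
      linarith
    · obtain ⟨t, rfl⟩ := Multiset.exists_cons_of_mem h
      have h1 := re_sum_ge t (fun a ha => hs a (Multiset.mem_cons_of_mem ha)) 1
      simp only [pow_one, Multiset.map_id'] at h1
      have h2 := Complex.re_le_norm ((M : ℂ) ::ₘ t).sum
      rw [Multiset.sum_cons, Complex.add_re, Complex.ofReal_re] at h2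
      rw [Multiset.sum_cons, Multiset.card_cons]
      push_cast at h2 ⊢
      linarith
  exact fun a ha => (hM2 a ha).trans key

lemma card_I3 (B : M3 N) : B.charpoly.roots.card = N ^ 3 := by
  rw [card_roots' B]
  simp only [I3, Fintype.card_prod, Fintype.card_fin]
  ring

lemma mem_roots {B : M3 N} {lam : ℂ} {x : I3 N → ℂ} (hx0 : x ≠ 0) (hx : B *ᵥ x = lam • x) :
    lam ∈ B.charpoly.roots := by
  rw [Polynomial.mem_roots']
  refine ⟨B.charpoly_monic.ne_zero, ?_⟩
  rw [Polynomial.IsRoot, Matrix.eval_charpoly]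
  refine Matrix.exists_mulVec_eq_zero_iff.1 ⟨x, hx0, ?_⟩
  rw [Matrix.sub_mulVec, hx]
  funext p
  simp [Matrix.scalar_apply]

/-- the spectral radius of a doubled braid is bounded by its trace -/
theorem specLe_trace (hN : 0 < N) {u : List (ℕ × Bool)} (hu : ∀ l ∈ u, l.1 < 2) :
    SpecLe (rep3 N (dual u ++ u)) (‖(rep3 N (u ++ dual u)).trace‖ + (N : ℝ) ^ 3) := by
  intro lam x hx0 hx
  have hdd := dual_dual hu
  have e : dual u ++ u = dual u ++ dual (dual u) := by rw [hdd]
  have htr : (rep3 N (u ++ dual u)).trace = (rep3 N (dual u ++ u)).trace := by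
    rw [rep3_append, rep3_append, Matrix.trace_mul_comm]
  set B := rep3 N (dual u ++ u) with hB
  have h := rad_le (s := B.charpoly.roots) (fun a ha => by
    obtain ⟨m, hm⟩ := eig_of_root (good_rep3 _) ha
    rw [e] at hm
    exact eig_main hN dual_lt hm) (by rw [card_I3]; exact Nat.one_le_pow _ _ hN) lam
      (mem_roots hx0 hx)
  rw [card_I3, ← Matrix.trace_eq_sum_roots_charpoly B] at h
  rw [htr]
  push_cast at h
  exact h

/-- **the reflection inequality for traces** -/
theorem trace_prod (hN : 0 < N) (us : List (List (ℕ × Bool)))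
    (hus : ∀ u ∈ us, ∀ l ∈ u, l.1 < 2) :
    ‖(rep3 N us.flatten).trace‖ ^ 2 ≤ (N : ℝ) ^ 6 *
      (us.map fun u => ‖(rep3 N (u ++ dual u)).trace‖ + (N : ℝ) ^ 3).prod := by
  set ps : List (List (ℕ × Bool) × ℝ) :=
    us.map fun u => (u, ‖(rep3 N (u ++ dual u)).trace‖ + (N : ℝ) ^ 3) with hps
  have h1 : ps.map Prod.fst = us := by
    rw [hps, List.map_map]
    conv_rhs => rw [← List.map_id us]
    rfl
  have h2 : ps.map Prod.snd = us.map fun u => ‖(rep3 N (u ++ dual u)).trace‖ + (N : ℝ) ^ 3 := by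
    rw [hps, List.map_map]
    rfl
  have hN1 : (1 : ℝ) ≤ N := by exact_mod_cast hN
  have hN3 : (1 : ℝ) ≤ (N : ℝ) ^ 3 := one_le_pow₀ hN1
  have h3 : ∀ p ∈ ps, (∀ l ∈ p.1, l.1 < 2) ∧ 1 ≤ p.2 ∧ SpecLe (rep3 N (dual p.1 ++ p.1)) p.2 := by
    intro p hp
    rw [hps, List.mem_map] at hp
    obtain ⟨u, hu, rfl⟩ := hp
    refine ⟨hus u hu, ?_, specLe_trace hN (hus u hu)⟩
    have := norm_nonneg (rep3 N (u ++ dual u)).trace
    simp only
    linarith
  rw [← h2]
  set P := (ps.map Prod.snd).prod with hP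
  have hP1 : 1 ≤ P := by
    refine prod_nonneg_list _ fun a ha => ?_
    rw [List.mem_map] at ha
    obtain ⟨p, hp, rfl⟩ := ha
    exact (h3 p hp).2.1
  have h4 : ∀ a ∈ (rep3 N us.flatten).charpoly.roots, ‖a‖ ≤ √P := by
    intro a ha
    obtain ⟨m, hm⟩ := eig_of_root (good_rep3 _) ha
    rw [← h1] at hm
    exact Real.le_sqrt_of_sq_le (eig_prod hN ps h3 hm)
  have h5 := Pool.Agent.W715.VC.norm_sum_le (rep3 N us.flatten).charpoly.roots h4 1
  simp only [pow_one, Multiset.map_id'] at h5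
  rw [← Matrix.trace_eq_sum_roots_charpoly, card_I3] at h5
  have h6 : ‖(rep3 N us.flatten).trace‖ ^ 2 ≤ (((N ^ 3 : ℕ) : ℝ) * √P) ^ 2 :=
    pow_le_pow_left₀ (norm_nonneg _) h5 2
  refine h6.trans (le_of_eq ?_)
  rw [mul_pow, Real.sq_sqrt (by linarith)]
  push_cast
  ring

end Pool.Agent.Q66.RP
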