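import Pool.Agent.W715.VC.Limit

/-!
# The reflection inequality for 3-braids at the Kashaev root of unity

`rep3 N w` is the operator of the braid word `w` on `V_N ⊗ V_N ⊗ V_N` at `v = exp (π i / N)`, and
`dual u` is the reflected word (reversed, the two generators exchanged, all crossings changed).
-/

set_option autoImplicit false

namespace Pool.Agent.Q66.RP

open Matrix Finset Pool.Agent.W715.VC

variable {N : ℕ}

/-- Cauchy-Schwarz for the invariant form on the highest weight vectors -/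
lemma cs {m : ℕ} (hm : m < N) (h2 : N ≤ 2 * m + 1) {x y : I3 N → ℂ} (hx : InK m x)
    (hy : InK m y) : ‖Hf x y‖ ^ 2 ≤ ‖Hf x x‖ * ‖Hf y y‖ := by
  obtain ⟨c, hc⟩ := semi hm h2
  have hD : ∀ i ∈ range (m + 1), 0 ≤ DD N m i := fun i hi => by
    rw [mem_range] at hi
    exact DD_nonneg hm (by omega)
  have key : ∀ z, InK m z → ‖Hf z z‖ = |c| * ∑ i ∈ range (m + 1), DD N m i * ‖LL N m i z‖ ^ 2 := by
    intro z hz
    rw [hc z z hz hz, norm_mul, Complex.norm_real, Real.norm_eq_abs]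
    congr 1
    have h3 : (∑ i ∈ range (m + 1), ((DD N m i : ℝ) : ℂ) *
        ((starRingEnd ℂ) (LL N m i z) * LL N m i z)) =
        ((∑ i ∈ range (m + 1), DD N m i * ‖LL N m i z‖ ^ 2 : ℝ) : ℂ) := by
      push_cast
      refine sum_congr rfl fun i _ => ?_
      rw [Complex.conj_mul']
    rw [h3, Complex.norm_real, Real.norm_eq_abs, abs_of_nonneg]
    exact sum_nonneg fun i hi => mul_nonneg (hD i hi) (by positivity)
  have h4 : ‖Hf x y‖ ≤ |c| * ∑ i ∈ range (m + 1), DD N m i * (‖LL N m i x‖ * ‖LL N m i y‖) := by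
    rw [hc x y hx hy, norm_mul, Complex.norm_real, Real.norm_eq_abs]
    refine mul_le_mul_of_nonneg_left ?_ (abs_nonneg c)
    refine (_root_.norm_sum_le _ _).trans (sum_le_sum fun i hi => ?_)
    rw [norm_mul, norm_mul, Complex.norm_real, Real.norm_eq_abs, abs_of_nonneg (hD i hi),
      RCLike.norm_conj]
  have h5 : (∑ i ∈ range (m + 1), DD N m i * (‖LL N m i x‖ * ‖LL N m i y‖)) ^ 2 ≤
      (∑ i ∈ range (m + 1), DD N m i * ‖LL N m i x‖ ^ 2) *
        ∑ i ∈ range (m + 1), DD N m i * ‖LL N m i y‖ ^ 2 := by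
    have h6 := Finset.sum_mul_sq_le_sq_mul_sq (range (m + 1))
      (fun i => √(DD N m i) * ‖LL N m i x‖) (fun i => √(DD N m i) * ‖LL N m i y‖)
    refine le_trans (le_of_eq ?_) (h6.trans (le_of_eq ?_))
    · congr 1
      refine sum_congr rfl fun i hi => ?_
      have := Real.mul_self_sqrt (hD i hi)
      linear_combination (-(‖LL N m i x‖ * ‖LL N m i y‖)) * this
    · congr 1
      · refine sum_congr rfl fun i hi => ?_
        rw [mul_pow, Real.sq_sqrt (hD i hi)]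
      · refine sum_congr rfl fun i hi => ?_
        rw [mul_pow, Real.sq_sqrt (hD i hi)]
  have h7 : 0 ≤ ∑ i ∈ range (m + 1), DD N m i * (‖LL N m i x‖ * ‖LL N m i y‖) :=
    sum_nonneg fun i hi => mul_nonneg (hD i hi) (by positivity)
  rw [key x hx, key y hy]
  calc ‖Hf x y‖ ^ 2 ≤ (|c| * ∑ i ∈ range (m + 1), DD N m i *
        (‖LL N m i x‖ * ‖LL N m i y‖)) ^ 2 := pow_le_pow_left₀ (norm_nonneg _) h4 2
    _ = |c| ^ 2 * (∑ i ∈ range (m + 1), DD N m i * (‖LL N m i x‖ * ‖LL N m i y‖)) ^ 2 := by ring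
    _ ≤ |c| ^ 2 * ((∑ i ∈ range (m + 1), DD N m i * ‖LL N m i x‖ ^ 2) *
        ∑ i ∈ range (m + 1), DD N m i * ‖LL N m i y‖ ^ 2) :=
      mul_le_mul_of_nonneg_left h5 (by positivity)
    _ = _ := by ring

/-- all eigenvalues have modulus at most `ρ` -/
def SpecLe (B : M3 N) (ρ : ℝ) : Prop :=
  ∀ (lam : ℂ) (x : I3 N → ℂ), x ≠ 0 → B *ᵥ x = lam • x → ‖lam‖ ≤ ρ

attribute [local instance] Matrix.linftyOpNormedRing Matrix.linftyOpNormedAlgebra

lemma gelfand {B : M3 N} {ρ : ℝ} (hB : SpecLe B ρ) (hρ : 0 ≤ ρ) {ε : ℝ} (hε : 0 < ε) :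
    ∀ᶠ n : ℕ in Filter.atTop, ‖B ^ n‖ ≤ (ρ + ε) ^ n := by
  have h1 := spectrum.pow_nnnorm_pow_one_div_tendsto_nhds_spectralRadius B
  have h2 : spectralRadius ℂ B ≤ ENNReal.ofReal ρ := by
    unfold spectralRadius
    refine iSup₂_le fun k hk => ?_
    have h3 : ‖k‖ ≤ ρ := by
      have h4 : k ∈ spectrum ℂ (Matrix.toLin' B) := by
        rw [Matrix.spectrum_toLin']; exact hk
      obtain ⟨x, hx⟩ := (Module.End.hasEigenvalue_iff_mem_spectrum.2 h4).exists_hasEigenvector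
      refine hB k x hx.2 ?_
      have h5 := hx.apply_eq_smul
      rwa [Matrix.toLin'_apply] at h5
    rw [← ENNReal.ofReal_coe_nnreal]
    exact ENNReal.ofReal_le_ofReal h3
  have h3 : spectralRadius ℂ B < ENNReal.ofReal (ρ + ε) := by
    refine lt_of_le_of_lt h2 ?_
    exact (ENNReal.ofReal_lt_ofReal_iff (by linarith)).2 (by linarith)
  filter_upwards [h1.eventually (gt_mem_nhds h3), Filter.eventually_gt_atTop 0] with n hn hn0
  have h4 : ((‖B ^ n‖₊ : ℝ)) ^ (1 / n : ℝ) < ρ + ε := by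
    have h5 : ENNReal.ofReal ((‖B ^ n‖₊ : ℝ) ^ (1 / n : ℝ)) < ENNReal.ofReal (ρ + ε) := by
      refine lt_of_eq_of_lt ?_ hn
      rw [← NNReal.coe_rpow, ENNReal.ofReal_coe_nnreal, ENNReal.coe_rpow_of_nonneg _ (by positivity)]
    exact (ENNReal.ofReal_lt_ofReal_iff (by linarith)).1 h5
  have h6 : ‖B ^ n‖ = (((‖B ^ n‖₊ : ℝ)) ^ (1 / n : ℝ)) ^ n := by
    rw [← Real.rpow_natCast, ← Real.rpow_mul (by positivity)]
    have : (1 / (n : ℝ)) * n = 1 := by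
      have : (n : ℝ) ≠ 0 := by exact_mod_cast hn0.ne'
      field_simp
    rw [this, Real.rpow_one]
    rfl
  rw [h6]
  exact pow_le_pow_left₀ (by positivity) h4.le n

lemma Hf_bound (x : I3 N → ℂ) {R : ℝ} (hR : ∀ p, ‖x p‖ ≤ R) (hR0 : 0 ≤ R) :
    ‖Hf x x‖ ≤ (N : ℝ) ^ 3 * R ^ 2 := by
  unfold Hf
  refine (_root_.norm_sum_le _ _).trans ?_
  calc ∑ p : I3 N, ‖(starRingEnd ℂ) (x p) * x (rv p)‖ ≤ ∑ _p : I3 N, R ^ 2 := by
        refine sum_le_sum fun p _ => ?_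
        rw [norm_mul, RCLike.norm_conj, pow_two]
        exact mul_le_mul (hR _) (hR _) (norm_nonneg _) hR0
    _ = (N : ℝ) ^ 3 * R ^ 2 := by
        rw [sum_const, nsmul_eq_mul, card_univ]
        simp only [I3, Fintype.card_prod, Fintype.card_fin]
        push_cast
        ring

lemma hadj_hadj (A : M3 N) : hadj (hadj A) = A := by
  ext p q
  simp only [hadj, Complex.conj_conj, rv_rv]

/-- **norm and spectral radius**: on the highest weight vectors the norm of `U` is the square root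
of the spectral radius of its adjoint times itself -/
lemma norm_le {m : ℕ} (hm : m < N) (h2 : N ≤ 2 * m + 1) {u : List (ℕ × Bool)}
    (hu : ∀ l ∈ u, l.1 < 2) {ρ : ℝ} (hρ : 0 ≤ ρ) (hS : SpecLe (rep3 N (dual u ++ u)) ρ)
    {x : I3 N → ℂ} (hx : InK m x) :
    ‖Hf (rep3 N u *ᵥ x) (rep3 N u *ᵥ x)‖ ≤ ρ * ‖Hf x x‖ := by
  have hN : 0 < N := by omega
  set U := rep3 N u with hU
  set T := rep3 N (dual u ++ u) with hT
  have hTU : T = hadj U * U := by
    rw [hT, rep3_append, ← hadj_rep3 hN hu]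
  have hTa : hadj T = T := by
    rw [hTU, hadj_mul, hadj_hadj]
  have hTG : Good T := good_rep3 _
  have hTK : ∀ j : ℕ, InK m (T ^ j *ᵥ x) := by
    intro j
    induction j with
    | zero => rw [pow_zero, one_mulVec]; exact hx
    | succ j ih => rw [pow_succ', ← Matrix.mulVec_mulVec]; exact hTG.InK ih
  have hpa : ∀ j : ℕ, hadj (T ^ j) = T ^ j := by
    intro j
    induction j with
    | zero => rw [pow_zero]; exact hadj_one
    | succ j ih => rw [pow_succ, hadj_mul, ih, hTa, ← pow_succ', pow_succ]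
  -- the square of the norm of `T ^ j x`
  have hsq : ∀ j : ℕ, Hf (T ^ j *ᵥ x) (T ^ j *ᵥ x) = Hf x (T ^ (2 * j) *ᵥ x) := by
    intro j
    rw [Hf_adj, hpa, Matrix.mulVec_mulVec, ← pow_add, two_mul]
  have h1 : Hf (U *ᵥ x) (U *ᵥ x) = Hf x (T *ᵥ x) := by
    rw [Hf_adj, Matrix.mulVec_mulVec, ← hTU]
  set s := ‖Hf x x‖ with hs
  have hs0 : 0 ≤ s := norm_nonneg _
  set r := ‖Hf (U *ᵥ x) (U *ᵥ x)‖ with hr
  have hr0 : 0 ≤ r := norm_nonneg _
  have hstep : ∀ j : ℕ, ‖Hf (T ^ j *ᵥ x) (T ^ j *ᵥ x)‖ ^ 2 ≤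
      s * ‖Hf (T ^ (2 * j) *ᵥ x) (T ^ (2 * j) *ᵥ x)‖ := by
    intro j
    rw [hsq]
    exact cs hm h2 hx (hTK _)
  have hfirst : r ^ 2 ≤ s * ‖Hf (T ^ 1 *ᵥ x) (T ^ 1 *ᵥ x)‖ := by
    rw [hr, h1, pow_one]
    have := cs hm h2 hx (hTK 1)
    rwa [pow_one] at this
  -- iteration
  have hiter : ∀ k : ℕ, r ^ (2 ^ (k + 1)) ≤
      s ^ (2 ^ (k + 1) - 1) * ‖Hf (T ^ (2 ^ k) *ᵥ x) (T ^ (2 ^ k) *ᵥ x)‖ := by
    intro k
    induction k with
    | zero => simpa using hfirst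
    | succ k ih =>
      have e1 : r ^ (2 ^ (k + 1 + 1)) = (r ^ (2 ^ (k + 1))) ^ 2 := by
        rw [← pow_mul, ← pow_succ]
      have e2 : 2 ^ (k + 1 + 1) - 1 = (2 ^ (k + 1) - 1) * 2 + 1 := by
        have : 1 ≤ 2 ^ (k + 1) := Nat.one_le_two_pow
        have e : 2 ^ (k + 1 + 1) = 2 ^ (k + 1) * 2 := pow_succ 2 (k + 1)
        omega
      rw [e1, e2, pow_succ s, pow_mul s]
      calc (r ^ (2 ^ (k + 1))) ^ 2 ≤ (s ^ (2 ^ (k + 1) - 1) *
            ‖Hf (T ^ (2 ^ k) *ᵥ x) (T ^ (2 ^ k) *ᵥ x)‖) ^ 2 :=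
            pow_le_pow_left₀ (by positivity) ih 2
        _ = (s ^ (2 ^ (k + 1) - 1)) ^ 2 * ‖Hf (T ^ (2 ^ k) *ᵥ x) (T ^ (2 ^ k) *ᵥ x)‖ ^ 2 := by ring
        _ ≤ (s ^ (2 ^ (k + 1) - 1)) ^ 2 *
            (s * ‖Hf (T ^ (2 * 2 ^ k) *ᵥ x) (T ^ (2 * 2 ^ k) *ᵥ x)‖) :=
            mul_le_mul_of_nonneg_left (hstep _) (by positivity)
        _ = _ := by
            have e3 : 2 * 2 ^ k = 2 ^ (k + 1) := by rw [pow_succ]; ring
            rw [e3]; ring
  rcases hs0.lt_or_eq with hs1 | hs1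
  swap
  · rw [← hs1] at hfirst ⊢
    have : r ^ 2 = 0 := le_antisymm (by simpa using hfirst) (by positivity)
    rw [mul_zero]
    exact (pow_eq_zero_iff two_ne_zero).1 this |>.le
  -- the growth of `T ^ n x`
  obtain ⟨R, hR0, hR⟩ : ∃ R : ℝ, 0 ≤ R ∧ ‖x‖ ≤ R := ⟨‖x‖, norm_nonneg _, le_rfl⟩
  refine le_of_forall_pos_le_add fun ε hε => ?_
  by_contra hcon
  push Not at hcon
  set δ := ε / s with hδ
  have hδ0 : 0 < δ := div_pos hε hs1
  have hq : ρ + δ < r / s := by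
    rw [lt_div_iff₀ hs1]
    have : (ρ + δ) * s = ρ * s + ε := by
      rw [hδ]; field_simp
    rw [this]; exact hcon
  have hgel := gelfand hS hρ (half_pos hδ0)
  have hsub : Filter.Tendsto (fun k : ℕ => 2 ^ k) Filter.atTop Filter.atTop :=
    tendsto_pow_atTop_atTop_of_one_lt (by norm_num)
  have hg2 := hsub.eventually hgel
  have hbd : ∀ᶠ k : ℕ in Filter.atTop,
      ((r / s) ^ 2) ^ (2 ^ k) ≤ ((N : ℝ) ^ 3 * ‖x‖ ^ 2 / s) * ((ρ + δ / 2) ^ 2) ^ (2 ^ k) := by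
    filter_upwards [hg2] with k hk
    have h3 := hiter k
    have h4 : ‖Hf (T ^ (2 ^ k) *ᵥ x) (T ^ (2 ^ k) *ᵥ x)‖ ≤
        (N : ℝ) ^ 3 * ((ρ + δ / 2) ^ (2 ^ k) * ‖x‖) ^ 2 := by
      refine Hf_bound _ (fun p => ?_) (by positivity)
      refine (norm_le_pi_norm (T ^ (2 ^ k) *ᵥ x) p).trans ?_
      refine (Matrix.linfty_opNorm_mulVec _ _).trans ?_
      exact mul_le_mul_of_nonneg_right hk (norm_nonneg _)
    have e1 : s ^ (2 ^ (k + 1) - 1) * s = s ^ (2 ^ (k + 1)) := by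
      rw [← pow_succ]
      congr 1
      have : 1 ≤ 2 ^ (k + 1) := Nat.one_le_two_pow
      omega
    have h5 : r ^ (2 ^ (k + 1)) ≤ s ^ (2 ^ (k + 1)) / s *
        ((N : ℝ) ^ 3 * ((ρ + δ / 2) ^ (2 ^ k) * ‖x‖) ^ 2) := by
      refine h3.trans ?_
      rw [← e1, mul_div_assoc, div_self hs1.ne', mul_one]
      exact mul_le_mul_of_nonneg_left h4 (by positivity)
    rw [← pow_mul, ← pow_mul, div_pow]
    have e2 : 2 * 2 ^ k = 2 ^ (k + 1) := by rw [pow_succ]; ring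
    rw [e2, div_le_iff₀ (by positivity)]
    refine h5.trans (le_of_eq ?_)
    have e3 : ((ρ + δ / 2) ^ (2 ^ k) * ‖x‖) ^ 2 = (ρ + δ / 2) ^ (2 ^ (k + 1)) * ‖x‖ ^ 2 := by
      rw [mul_pow, ← pow_mul, mul_comm (2 ^ k) 2, e2]
    rw [e3]
    field_simp
  -- contradiction
  set A := (r / s) ^ 2 with hA
  set B' := (ρ + δ / 2) ^ 2 with hB'
  have hB0 : 0 < B' := by positivity
  have hAB : B' < A := by
    rw [hA, hB']
    exact pow_lt_pow_left₀ (by linarith) (by positivity) two_ne_zero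
  have h6 : Filter.Tendsto (fun k : ℕ => (A / B') ^ (2 ^ k)) Filter.atTop Filter.atTop :=
    (tendsto_pow_atTop_atTop_of_one_lt ((one_lt_div hB0).2 hAB)).comp hsub
  obtain ⟨k, hk1, hk2⟩ := (hbd.and (h6.eventually_gt_atTop ((N : ℝ) ^ 3 * ‖x‖ ^ 2 / s))).exists
  rw [div_pow, lt_div_iff₀ (by positivity)] at hk2
  linarith

end Pool.Agent.Q66.RP
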