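import Pool.Agent.Q66.RP.Asym
import Pool.Agent.W719.BX.GeoN
import Pool.Agent.W715.VC.Base2
import Pool.Agent.H776R3.EvenVol.TaskL
import Pool.Agent.H112R4.VL.B
import Pool.Agent.H112R4.VL.D
import Pool.Agent.H8R3.VL.TaskC
import Pool.Agent.H180R3.EV.Quant

/-!
# Twist regions and half twists
-/

set_option autoImplicit false

namespace Pool.Agent.Q66.RP

open Matrix Finset Filter Topology Pool.Agent.W715.VC Pool.Agent.W719.BX
open Pool.Agent.H550R3.Jones (on12 on23)

/-- exchange the two generators -/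
def fl (l : ℕ × Bool) : ℕ × Bool := (1 - l.1, l.2)

variable {N : ℕ}

lemma Dl_g3 {l : ℕ × Bool} (hl : l.1 < 2) : Dl N * g3 N l = g3 N (fl l) * Dl N := by
  obtain ⟨k, b⟩ := l
  have hk : k = 0 ∨ k = 1 := by simp only at hl; omega
  rcases hk with rfl | rfl <;> cases b <;> simp [g3, fl, Dl_P12, Dl_Q12, Dl_P23, Dl_Q23]

lemma Dl_rep3 {w : List (ℕ × Bool)} (hw : ∀ l ∈ w, l.1 < 2) :
    Dl N * rep3 N w = rep3 N (w.map fl) * Dl N := by
  induction w with
  | nil => simp [rep3_nil]
  | cons l w ih =>
    rw [List.map_cons, rep3_cons, rep3_cons, ← mul_assoc, Dl_g3 (hw l List.mem_cons_self),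
      mul_assoc, ih fun a ha => hw a (List.mem_cons_of_mem l ha), mul_assoc]

lemma Dl_inv : on12 (QQ N) * on23 (QQ N) * on12 (QQ N) * Dl N = 1 := by
  unfold Dl
  have q1 : on12 (QQ N) * on12 (PP N) = 1 := by rw [on12_mul, QQ_PP, on12_one]
  have q2 : on23 (QQ N) * on23 (PP N) = 1 := by rw [on23_mul, QQ_PP, on23_one]
  calc on12 (QQ N) * on23 (QQ N) * on12 (QQ N) * (on12 (PP N) * on23 (PP N) * on12 (PP N))
      = on12 (QQ N) * (on23 (QQ N) * (on12 (QQ N) * on12 (PP N)) * on23 (PP N)) * on12 (PP N) := by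
        noncomm_ring
    _ = 1 := by rw [q1, mul_one, q2, mul_one, q1]

lemma trace_fl {w : List (ℕ × Bool)} (hw : ∀ l ∈ w, l.1 < 2) :
    (rep3 N (w.map fl)).trace = (rep3 N w).trace := by
  have h1 := Dl_inv (N := N)
  have h2 : Dl N * (on12 (QQ N) * on23 (QQ N) * on12 (QQ N)) = 1 := mul_eq_one_comm.1 h1
  generalize on12 (QQ N) * on23 (QQ N) * on12 (QQ N) = D' at h1 h2
  calc (rep3 N (w.map fl)).trace = (rep3 N (w.map fl) * (Dl N * D')).trace := by rw [h2, mul_one]
    _ = (Dl N * rep3 N w * D').trace := by rw [Dl_rep3 hw, mul_assoc]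
    _ = (rep3 N w).trace := by rw [mul_assoc, Matrix.trace_mul_comm, mul_assoc, h1, mul_one]

lemma trace_swap (u w : List (ℕ × Bool)) : (rep3 N (u ++ w)).trace = (rep3 N (w ++ u)).trace := by
  rw [rep3_append, rep3_append, Matrix.trace_mul_comm]

/-- a twist region with `a` crossings -/
def tw (k : Bool) (a : ℤ) : List (ℕ × Bool) :=
  List.replicate a.natAbs (if k then 1 else 0, decide (0 ≤ a))

lemma tw_lt (k : Bool) (a : ℤ) : ∀ l ∈ tw k a, l.1 < 2 := by
  intro l hl
  rw [List.eq_of_mem_replicate hl]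
  cases k <;> simp

lemma dual_rep (A k : ℕ) (b : Bool) : dual (List.replicate A (k, b)) =
    List.replicate A (1 - k, !b) := by
  unfold dual
  rw [List.map_replicate, List.reverse_replicate]
  rfl

lemma fl_rep (A k : ℕ) (b : Bool) : (List.replicate A (k, b)).map fl =
    List.replicate A (1 - k, b) := by
  rw [List.map_replicate]
  rfl

/-- all twist regions with the same number of crossings have the same double -/
lemma kt_tw (k : Bool) (a : ℤ) : kt (tw k a ++ dual (tw k a)) =
    kt (uA a.natAbs ++ dual (uA a.natAbs)) := by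
  funext N
  unfold kt
  congr 1
  set A := a.natAbs with hA
  have hlt : ∀ (c d : ℕ) (b b' : Bool), c < 2 → d < 2 →
      ∀ l ∈ List.replicate A (c, b) ++ List.replicate A (d, b'), l.1 < 2 := by
    intro c d b b' hc hd l hl
    rw [List.mem_append] at hl
    rcases hl with h | h
    · rw [List.eq_of_mem_replicate h]; exact hc
    · rw [List.eq_of_mem_replicate h]; exact hd
  unfold tw uA
  rw [← hA, dual_rep, dual_rep]
  cases k
  · by_cases h : 0 ≤ a
    · simp [h]
    · simp only [h, decide_false, Bool.not_false, Bool.false_eq_true, if_false, Nat.sub_zero,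
        Bool.not_true]
      rw [← trace_fl (hlt 0 1 false true (by omega) (by omega)), List.map_append, fl_rep, fl_rep,
        trace_swap]
  · by_cases h : 0 ≤ a
    · simp only [h, decide_true, Bool.not_true, if_true, Nat.sub_self, Nat.sub_zero]
      rw [← trace_fl (hlt 1 0 true false (by omega) (by omega)), List.map_append, fl_rep, fl_rep]
    · simp only [h, decide_false, Bool.not_false, if_true, Nat.sub_self, Nat.sub_zero,
        Bool.not_true]
      rw [trace_swap]

/-- the half twist -/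
def ht (s : Bool) : List (ℕ × Bool) := [(0, s), (1, s), (0, s)]

lemma ht_lt (s : Bool) : ∀ l ∈ ht s, l.1 < 2 := by
  intro l hl
  simp only [ht, List.mem_cons, List.not_mem_nil, or_false] at hl
  rcases hl with rfl | rfl | rfl <;> simp

lemma rep3_ht (s : Bool) : rep3 N (ht s ++ dual (ht s)) = 1 := by
  have q1 : on12 (QQ N) * on12 (PP N) = 1 := by rw [on12_mul, QQ_PP, on12_one]
  have q2 : on23 (QQ N) * on23 (PP N) = 1 := by rw [on23_mul, QQ_PP, on23_one]
  have q3 : on12 (PP N) * on12 (QQ N) = 1 := by rw [on12_mul, PP_QQ, on12_one]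
  have q4 : on23 (PP N) * on23 (QQ N) = 1 := by rw [on23_mul, PP_QQ, on23_one]
  have hY := YB3 (N := N)
  have e1 : on12 (PP N) * on23 (PP N) * on12 (PP N) *
      (on23 (QQ N) * on12 (QQ N) * on23 (QQ N)) = 1 := by
    rw [hY]
    calc on23 (PP N) * on12 (PP N) * on23 (PP N) * (on23 (QQ N) * on12 (QQ N) * on23 (QQ N))
        = on23 (PP N) * (on12 (PP N) * (on23 (PP N) * on23 (QQ N)) * on12 (QQ N)) * on23 (QQ N) := by
          noncomm_ring
      _ = 1 := by rw [q4, mul_one, q3, mul_one, q4]
  have e2 : on12 (QQ N) * on23 (QQ N) * on12 (QQ N) *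
      (on23 (PP N) * on12 (PP N) * on23 (PP N)) = 1 := by
    rw [← hY]
    exact Dl_inv
  cases s
  · simp only [ht, dual, List.map_cons, List.map_nil, dl, List.reverse_cons, List.reverse_nil,
      List.nil_append, List.cons_append, rep3_cons, rep3_nil, mul_one, g3]
    simp only [if_true, one_ne_zero, if_false, Bool.not_false, Nat.sub_zero, Nat.sub_self,
      Bool.false_eq_true]
    rw [← e2]
    noncomm_ring
  · simp only [ht, dual, List.map_cons, List.map_nil, dl, List.reverse_cons, List.reverse_nil,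
      List.nil_append, List.cons_append, rep3_cons, rep3_nil, mul_one, g3]
    simp only [if_true, one_ne_zero, if_false, Bool.not_true, Nat.sub_zero, Nat.sub_self,
      Bool.false_eq_true]
    rw [← e1]
    noncomm_ring

lemma kt_one {w : List (ℕ × Bool)} (h : ∀ N, rep3 N w = 1) (N : ℕ) : kt w N = (N : ℝ) ^ 3 := by
  unfold kt
  rw [h, Matrix.trace_one]
  simp only [I3, Fintype.card_prod, Fintype.card_fin]
  push_cast
  rw [norm_mul, norm_mul]
  simp only [Complex.norm_natCast]
  ring

lemma ub_one {w : List (ℕ × Bool)} (h : ∀ N, rep3 N w = 1) : UB (kt w) 0 := by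
  intro ε hε
  filter_upwards [poly_le 3 1 hε] with N e1
  rw [kt_one h, zero_div, zero_add]
  linarith

/-- the volume of the closure of `s_1^a s_2^{-a}` with its axis (for `a = 3` an upper bound) -/
noncomputable def VV (a : ℕ) : ℝ :=
  if a = 0 then 0 else if a = 1 then 8 * GapVol.lob (Real.pi / 6)
  else if a = 2 then 16 * GapVol.lob (Real.pi / 4)
  else if a = 3 then 8 * GapVol.lob (Real.pi / 6) + 16 * GapVol.lob (Real.pi / 4)
  else sSup {W : ℝ | ∃ w, bAngleN a 1 w ∧ bvolN a 1 w = W}

lemma lob6 : 0 < GapVol.lob (Real.pi / 6) := by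
  have h1 : 0 < 2 / Real.pi * GapVol.lob (Real.pi / 6) := Pool.Agent.H180R3.EV.V4_pos
  exact (mul_pos_iff_of_pos_left (div_pos two_pos Real.pi_pos)).1 h1

lemma lob4 : 0 < GapVol.lob (Real.pi / 4) := EvenVol.LobIneq.lob_four_pos

lemma lim_one : Lim (kt (uA 1 ++ dual (uA 1))) (8 * GapVol.lob (Real.pi / 6)) := by
  unfold Lim
  refine (Pool.Agent.H112R4.VL.taskD Pool.Agent.H112R4.VL.taskB
    Pool.Agent.H8R3.VL.taskC).congr' ?_
  filter_upwards [eventually_gt_atTop 0] with N hN
  have h4 : uA 1 ++ dual (uA 1) = [(0, true), (1, false)] := rfl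
  unfold kt
  rw [h4, trace_base hN, Complex.norm_real, Real.norm_eq_abs, abs_of_nonneg]
  · ring
  · exact Finset.sum_nonneg (fun n _ => by positivity)

lemma lim_two : Lim (kt (uA 2 ++ dual (uA 2))) (16 * GapVol.lob (Real.pi / 4)) := by
  unfold Lim
  refine tr2_growth.congr' ?_
  filter_upwards [eventually_gt_atTop 0] with N hN
  have h4 : uA 2 ++ dual (uA 2) = [(0, true), (0, true), (1, false), (1, false)] := rfl
  unfold kt
  rw [h4]
  have h5 := trace_two hN
  change (rep3 N [(0, true), (0, true), (1, false), (1, false)]).trace = _ at h5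
  rw [h5, Complex.norm_real, Real.norm_eq_abs, abs_of_nonneg]
  · unfold tr2
    ring
  · exact Finset.sum_nonneg (fun n _ => by positivity)

lemma lim_four {a : ℕ} (ha : 4 ≤ a) : IsGreatest {W : ℝ | ∃ w, bAngleN a 1 w ∧ bvolN a 1 w = W}
      (VV a) ∧ 20 * GapVol.lob (Real.pi / 6) ≤ VV a ∧ Lim (kt (uA a ++ dual (uA a))) (VV a) := by
  obtain ⟨V, h1, h2, h3⟩ := mainN (n := 1) ha le_rfl
  have h4 : VV a = V := by
    unfold VV
    rw [if_neg (by omega), if_neg (by omega), if_neg (by omega), if_neg (by omega)]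
    exact h1.csSup_eq
  rw [h4]
  refine ⟨h1, by simpa using h2, ?_⟩
  unfold Lim
  refine h3.congr fun N => ?_
  have h5 : wpow (uA a ++ dual (uA a)) 1 = uA a ++ dual (uA a) := by simp [wpow]
  rw [h5]
  unfold kt
  ring

/-- **the growth for one twist region** -/
theorem lim_VV {a : ℕ} (ha : a = 1 ∨ a = 2 ∨ 4 ≤ a) :
    Lim (kt (uA a ++ dual (uA a))) (VV a) ∧ 0 < VV a := by
  have h6 := lob6
  have h4 := lob4
  rcases ha with rfl | rfl | ha
  · refine ⟨?_, ?_⟩
    · have : VV 1 = 8 * GapVol.lob (Real.pi / 6) := by simp [VV]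
      rw [this]
      exact lim_one
    · simp [VV, h6]
  · refine ⟨?_, ?_⟩
    · have : VV 2 = 16 * GapVol.lob (Real.pi / 4) := by simp [VV]
      rw [this]
      exact lim_two
    · simp [VV, h4]
  · obtain ⟨-, h1, h2⟩ := lim_four ha
    exact ⟨h2, by linarith⟩

theorem ub_VV (a : ℕ) : UB (kt (uA a ++ dual (uA a))) (VV a) ∧ 0 ≤ VV a := by
  rcases Nat.eq_zero_or_pos a with rfl | h0
  · have : VV 0 = 0 := by simp [VV]
    rw [this]
    exact ⟨ub_one fun N => by simp [uA, dual, rep3_nil], le_rfl⟩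
  · by_cases h3 : a = 3
    · subst h3
      have e1 : VV 3 = VV 1 + VV 2 := by simp [VV]
      have hV1 := lim_VV (a := 1) (by omega)
      have hV2 := lim_VV (a := 2) (by omega)
      have u1 := Lim.ub (kt_nonneg _) hV1.1
      have u2 := Lim.ub (kt_nonneg _) hV2.1
      refine ⟨?_, by rw [e1]; linarith⟩
      have h := ub_word [(tw false 1, VV 1), (tw false 2, VV 2), (tw true (-1), VV 1),
        (tw true (-2), VV 2)] (by
          intro p hp
          simp only [List.mem_cons, List.not_mem_nil, or_false] at hp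
          rcases hp with rfl | rfl | rfl | rfl
          · exact ⟨tw_lt _ _, by rw [kt_tw]; exact u1, hV1.2.le⟩
          · exact ⟨tw_lt _ _, by rw [kt_tw]; exact u2, hV2.2.le⟩
          · exact ⟨tw_lt _ _, by rw [kt_tw]; exact u1, hV1.2.le⟩
          · exact ⟨tw_lt _ _, by rw [kt_tw]; exact u2, hV2.2.le⟩)
      have e2 : ([(tw false 1, VV 1), (tw false 2, VV 2), (tw true (-1), VV 1),
          (tw true (-2), VV 2)].map Prod.fst).flatten = uA 3 ++ dual (uA 3) := rfl
      have e3 : ([(tw false 1, VV 1), (tw false 2, VV 2), (tw true (-1), VV 1),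
          (tw true (-2), VV 2)].map Prod.snd).sum / 2 = VV 3 := by
        rw [e1]
        simp only [List.map_cons, List.map_nil, List.sum_cons, List.sum_nil]
        ring
      rw [e2, e3] at h
      exact h
    · have h := lim_VV (a := a) (by omega)
      exact ⟨Lim.ub (kt_nonneg _) h.1, h.2.le⟩

/-- `k` half twists -/
def half (k : ℤ) : List (ℕ × Bool) := (List.replicate k.natAbs (ht (decide (0 ≤ k)))).flatten

/-- **the upper bound by twist regions** -/
theorem ub_twists (k : ℤ) (l : List (Bool × ℤ)) :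
    UB (kt (half k ++ (l.map fun p => tw p.1 p.2).flatten))
      ((l.map fun p => VV p.2.natAbs).sum / 2) := by
  have h := ub_word (List.replicate k.natAbs (ht (decide (0 ≤ k)), 0) ++
    l.map fun p => (tw p.1 p.2, VV p.2.natAbs)) (by
      intro p hp
      rw [List.mem_append] at hp
      rcases hp with hp | hp
      · rw [List.eq_of_mem_replicate hp]
        exact ⟨ht_lt _, ub_one fun N => rep3_ht _, le_rfl⟩
      · rw [List.mem_map] at hp
        obtain ⟨q, _, rfl⟩ := hp
        refine ⟨tw_lt _ _, ?_, (ub_VV _).2⟩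
        rw [kt_tw]
        exact (ub_VV _).1)
  have e1 : ((List.replicate k.natAbs (ht (decide (0 ≤ k)), (0 : ℝ)) ++
      l.map fun p => (tw p.1 p.2, VV p.2.natAbs)).map Prod.fst).flatten =
      half k ++ (l.map fun p => tw p.1 p.2).flatten := by
    rw [List.map_append, List.flatten_append, List.map_replicate, List.map_map]
    rfl
  have e2 : ((List.replicate k.natAbs (ht (decide (0 ≤ k)), (0 : ℝ)) ++
      l.map fun p => (tw p.1 p.2, VV p.2.natAbs)).map Prod.snd).sum =
      (l.map fun p => VV p.2.natAbs).sum := by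
    rw [List.map_append, List.sum_append, List.map_replicate, List.map_map]
    have : (List.replicate k.natAbs (0 : ℝ)).sum = 0 := by simp
    rw [this, zero_add]
    rfl
  rw [e1, e2] at h
  exact h

/-- **optimality** -/
theorem lim_powers {a : ℕ} (ha : a = 1 ∨ a = 2 ∨ 4 ≤ a) {n : ℕ} (hn : n ≠ 0) :
    Lim (kt (wpow (uA a ++ dual (uA a)) n)) (n * VV a) := by
  obtain ⟨h1, h2⟩ := lim_VV ha
  refine (lim_iff (fun l hl => ?_) hn h2).1 h1
  unfold uA at hl
  rw [List.eq_of_mem_replicate hl]
  norm_num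

lemma le_of_ub_lb {S : ℕ → ℝ} {V W : ℝ} (h1 : UB S W) (h2 : LB S V) : V ≤ W := by
  refine le_of_forall_pos_le_add fun δ hδ => ?_
  have hpi := Real.pi_pos
  have hδ' : 0 < δ / (4 * Real.pi) := by positivity
  obtain ⟨N, ⟨e1, e2⟩, e3⟩ := (((h1 _ hδ').and (h2 _ hδ')).and (eventually_gt_atTop 0)).exists
  have hN : (0 : ℝ) < N := by exact_mod_cast e3
  have e4 := Real.exp_le_exp.1 (e2.trans e1)
  have e5 := le_of_mul_le_mul_right e4 hN
  have e6 := mul_le_mul_of_nonneg_left e5 (by positivity : 0 ≤ 2 * Real.pi)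
  have f1 : 2 * Real.pi * (W / (2 * Real.pi) + δ / (4 * Real.pi)) = W + δ / 2 := by
    field_simp
    ring
  have f2 : 2 * Real.pi * (V / (2 * Real.pi) - δ / (4 * Real.pi)) = V - δ / 2 := by
    field_simp
    ring
  rw [f1, f2] at e6
  linarith

/-- **the volumes are subadditive** -/
theorem VV_add (a b : ℕ) : VV (a + b) ≤ VV a + VV b := by
  rcases Nat.eq_zero_or_pos a with rfl | ha
  · have := (ub_VV 0).2
    rw [Nat.zero_add]
    linarith
  rcases Nat.eq_zero_or_pos b with rfl | hb
  · have := (ub_VV 0).2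
    rw [Nat.add_zero]
    linarith
  by_cases h3 : a + b = 3
  · have h : (a = 1 ∧ b = 2) ∨ (a = 2 ∧ b = 1) := by omega
    rcases h with ⟨rfl, rfl⟩ | ⟨rfl, rfl⟩
    · simp [VV]
    · simp [VV]
      linarith
  · obtain ⟨h1, h2⟩ := lim_VV (a := a + b) (by omega)
    refine le_of_ub_lb (S := kt (uA (a + b) ++ dual (uA (a + b)))) ?_ (Lim.lb (kt_nonneg _) h2 h1)
    have hA := ub_VV a
    have hB := ub_VV b
    have h := ub_word [(uA a, VV a), (uA b, VV b), (dual (uA b), VV b), (dual (uA a), VV a)] (by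
      have hlt : ∀ c : ℕ, ∀ l ∈ uA c, l.1 < 2 := fun c l hl => by
        unfold uA at hl
        rw [List.eq_of_mem_replicate hl]
        norm_num
      have hd : ∀ c : ℕ, UB (kt (dual (uA c) ++ dual (dual (uA c)))) (VV c) := by
        intro c
        have e : kt (dual (uA c) ++ dual (dual (uA c))) = kt (uA c ++ dual (uA c)) := by
          rw [dual_dual (hlt c)]
          funext N
          unfold kt
          rw [trace_swap]
        rw [e]
        exact (ub_VV c).1
      intro p hp
      simp only [List.mem_cons, List.not_mem_nil, or_false] at hp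
      rcases hp with rfl | rfl | rfl | rfl
      · exact ⟨hlt _, hA⟩
      · exact ⟨hlt _, hB⟩
      · exact ⟨dual_lt, hd b, hB.2⟩
      · exact ⟨dual_lt, hd a, hA.2⟩)
    have e2 : ([(uA a, VV a), (uA b, VV b), (dual (uA b), VV b),
        (dual (uA a), VV a)].map Prod.fst).flatten = uA (a + b) ++ dual (uA (a + b)) := by
      simp only [List.map_cons, List.map_nil, List.flatten_cons, List.flatten_nil, List.append_nil]
      unfold uA
      rw [dual_rep, dual_rep, dual_rep, ← List.append_assoc, ← List.replicate_add,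
        ← List.replicate_add, Nat.add_comm b a]
    have e3 : ([(uA a, VV a), (uA b, VV b), (dual (uA b), VV b),
        (dual (uA a), VV a)].map Prod.snd).sum / 2 = VV a + VV b := by
      simp only [List.map_cons, List.map_nil, List.sum_cons, List.sum_nil]
      ring
    rw [e2, e3] at h
    exact h

end Pool.Agent.Q66.RP
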